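import Mathlib

set_option autoImplicit false

namespace Pool.Agent.Results.MP_2107e4_co.EvenLength

open Filter Topology Finset

/-- The word `a_{i+1} … a_k b_1 … b_i` made of the end of `a` and the beginning of `b`. -/
def overlap {k n : ℕ} (a b : Fin k → Fin n) (i : Fin k) : Fin k → Fin n :=
  fun t => if h : t.val + i.val < k then a ⟨t.val + i.val, h⟩
    else b ⟨t.val + i.val - k, by have := t.isLt; have := i.isLt; omega⟩

/-- A set of words of length `k` is comma-free. -/
def CommaFree {k n : ℕ} (D : Finset (Fin k → Fin n)) : Prop :=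
  ∀ a ∈ D, ∀ b ∈ D, ∀ i : Fin k, i.val ≠ 0 → overlap a b i ∉ D

/-- `W k n`: the largest size of a comma-free set of words of length `k` over `n` letters. -/
noncomputable def W (k n : ℕ) : ℕ :=
  sSup {m | ∃ D : Finset (Fin k → Fin n), CommaFree D ∧ D.card = m}

lemma W_bdd (k n : ℕ) :
    BddAbove {m | ∃ D : Finset (Fin k → Fin n), CommaFree D ∧ D.card = m} := by
  refine ⟨n ^ k, ?_⟩
  rintro m ⟨D, -, rfl⟩
  calc D.card ≤ (univ : Finset (Fin k → Fin n)).card := card_le_univ D
    _ = n ^ k := by simp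

lemma card_le_W {k n : ℕ} {D : Finset (Fin k → Fin n)} (h : CommaFree D) : D.card ≤ W k n :=
  le_csSup (W_bdd k n) ⟨D, h, rfl⟩

lemma exists_W (k n : ℕ) : ∃ D : Finset (Fin k → Fin n), CommaFree D ∧ D.card = W k n := by
  have h : W k n ∈ {m | ∃ D : Finset (Fin k → Fin n), CommaFree D ∧ D.card = m} := by
    apply Nat.sSup_mem _ (W_bdd k n)
    exact ⟨0, ∅, by intro a ha; simp at ha, rfl⟩
  exact h

lemma W_le_pow (k n : ℕ) : W k n ≤ n ^ k := by
  obtain ⟨D, -, h⟩ := exists_W k n
  rw [← h]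
  calc D.card ≤ (univ : Finset (Fin k → Fin n)).card := card_le_univ D
    _ = n ^ k := by simp

/-! ### Blow-up -/

lemma overlap_comp {k n m : ℕ} (π : Fin n → Fin m) (a b : Fin k → Fin n) (i : Fin k) :
    π ∘ overlap a b i = overlap (π ∘ a) (π ∘ b) i := by
  funext t
  simp only [Function.comp, overlap]
  split_ifs <;> rfl

lemma blowup (k m N : ℕ) (hm : 0 < m) : W k m * (N / m) ^ k ≤ W k N := by
  classical
  obtain ⟨D, hD, hDc⟩ := exists_W k m
  let π : Fin N → Fin m := fun x => ⟨x.val % m, Nat.mod_lt _ hm⟩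
  let D' : Finset (Fin k → Fin N) := univ.filter (fun w => π ∘ w ∈ D)
  have hD' : CommaFree D' := by
    intro a ha b hb i hi hmem
    simp only [D', mem_filter, mem_univ, true_and] at ha hb hmem
    rw [overlap_comp] at hmem
    exact hD _ ha _ hb i hi hmem
  refine le_trans ?_ (card_le_W hD')
  rw [← hDc]
  have hcard : (D ×ˢ (univ : Finset (Fin k → Fin (N / m)))).card = D.card * (N / m) ^ k := by
    simp
  rw [← hcard]
  have hlt : ∀ (d : Fin m) (e : Fin (N / m)), d.val + m * e.val < N := by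
    intro d e
    have h1 := d.isLt
    have h2 := e.isLt
    have h3 : m * (e.val + 1) ≤ m * (N / m) := Nat.mul_le_mul_left _ h2
    have h4 : m * (N / m) ≤ N := Nat.mul_div_le N m
    have h5 : m * (e.val + 1) = m * e.val + m := by ring
    omega
  apply card_le_card_of_injOn
    (fun p : (Fin k → Fin m) × (Fin k → Fin (N / m)) =>
      (fun t => (⟨(p.1 t).val + m * (p.2 t).val, hlt _ _⟩ : Fin N)))
  · rintro ⟨d, e⟩ hp
    simp only [coe_product, coe_univ, Set.mem_prod, mem_coe, Set.mem_univ, and_true] at hp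
    simp only [D', coe_filter, mem_univ, true_and, Set.mem_ofPred_eq]
    have : π ∘ (fun t => (⟨(d t).val + m * (e t).val, hlt _ _⟩ : Fin N)) = d := by
      funext t
      apply Fin.ext
      simp only [π, Function.comp]
      rw [Nat.add_mul_mod_self_left, Nat.mod_eq_of_lt (d t).isLt]
    rw [this]
    exact hp
  · rintro ⟨d, e⟩ - ⟨d', e'⟩ - h
    have key : ∀ t, d t = d' t ∧ e t = e' t := by
      intro t
      have h1 := congrArg Fin.val (congrFun h t)
      simp only at h1
      have h2 := (d t).isLt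
      have h3 := (d' t).isLt
      have h4 : ((d t).val + m * (e t).val) % m = ((d' t).val + m * (e' t).val) % m := by rw [h1]
      rw [Nat.add_mul_mod_self_left, Nat.mod_eq_of_lt h2, Nat.add_mul_mod_self_left,
        Nat.mod_eq_of_lt h3] at h4
      refine ⟨Fin.ext h4, Fin.ext ?_⟩
      rw [h4] at h1
      have h5 : m * (e t).val = m * (e' t).val := by omega
      exact Nat.eq_of_mul_eq_mul_left hm h5
    have h1 : d = d' := funext fun t => (key t).1
    have h2 : e = e' := funext fun t => (key t).2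
    rw [h1, h2]

/-! ### Existence of the limit -/

lemma exists_limit (k : ℕ) (hk : 1 ≤ k) :
    ∃ a : ℝ, Tendsto (fun n : ℕ => (W k n : ℝ) / (n : ℝ) ^ k) atTop (𝓝 a) := by
  set f : ℕ → ℝ := fun n => (W k n : ℝ) / (n : ℝ) ^ k with hf
  have hbdd : BddAbove (Set.range f) := by
    refine ⟨1, ?_⟩
    rintro _ ⟨n, rfl⟩
    simp only [hf]
    rcases Nat.eq_zero_or_pos n with h | h
    · subst h
      simp [show k ≠ 0 by omega]
    · rw [div_le_one (by positivity)]
      exact_mod_cast W_le_pow k n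
  refine ⟨sSup (Set.range f), ?_⟩
  rw [tendsto_order]
  constructor
  · intro a' ha'
    obtain ⟨_, ⟨m, rfl⟩, hm⟩ := exists_lt_of_lt_csSup (Set.range_nonempty f) ha'
    have hf0 : f 0 = 0 := by simp [hf, show k ≠ 0 by omega]
    have hfnn : ∀ n, 0 ≤ f n := fun n => by simp only [hf]; positivity
    rcases Nat.eq_zero_or_pos m with h | hmpos
    · subst h
      rw [hf0] at hm
      exact Eventually.of_forall fun n => lt_of_lt_of_le hm (hfnn n)
    have hlim : Tendsto (fun n : ℕ => f m * ((1 - (m : ℝ) / n)) ^ k) atTop (𝓝 (f m * (1 - 0) ^ k)) := by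
      apply Tendsto.const_mul
      apply Tendsto.pow
      apply Tendsto.const_sub
      exact tendsto_const_div_atTop_nhds_zero_nat (m : ℝ)
    rw [sub_zero, one_pow, mul_one] at hlim
    filter_upwards [hlim.eventually (lt_mem_nhds hm), eventually_ge_atTop m] with n hn hmn
    refine lt_of_lt_of_le hn ?_
    have hnpos : 0 < n := lt_of_lt_of_le hmpos hmn
    have hb : ((W k m * (n / m) ^ k : ℕ) : ℝ) ≤ (W k n : ℝ) := by exact_mod_cast blowup k m n hmpos
    push_cast at hb
    simp only [hf]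
    rw [le_div_iff₀ (by positivity)]
    refine le_trans ?_ hb
    have h1 : (1 - (m : ℝ) / n) * n ≤ m * ((n / m : ℕ) : ℝ) := by
      have h2 : (1 - (m : ℝ) / n) * n = n - m := by field_simp
      rw [h2]
      have h3 : n ≤ m * (n / m) + m := by
        have := Nat.div_add_mod n m
        have := Nat.mod_lt n hmpos
        omega
      have h4 : (n : ℝ) ≤ m * ((n / m : ℕ) : ℝ) + m := by exact_mod_cast h3
      linarith
    have h0 : 0 ≤ (1 - (m : ℝ) / n) * n := by
      have h2 : (1 - (m : ℝ) / n) * n = n - m := by field_simp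
      rw [h2]
      have : (m : ℝ) ≤ n := by exact_mod_cast hmn
      linarith
    have h5 := pow_le_pow_left₀ h0 h1 k
    have h6 : (W k m : ℝ) / (m : ℝ) ^ k * (1 - (m : ℝ) / n) ^ k * (n : ℝ) ^ k
        = (W k m : ℝ) * ((((1 - (m : ℝ) / n) * n) ^ k) / (m : ℝ) ^ k) := by
      rw [mul_pow]; ring
    rw [h6]
    apply mul_le_mul_of_nonneg_left _ (by positivity)
    rw [div_le_iff₀ (by positivity)]
    calc ((1 - (m : ℝ) / n) * n) ^ k ≤ (m * ((n / m : ℕ) : ℝ)) ^ k := h5
      _ = ((n / m : ℕ) : ℝ) ^ k * (m : ℝ) ^ k := by rw [mul_pow]; ring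
  · intro a' ha'
    exact Eventually.of_forall fun n => lt_of_le_of_lt (le_csSup hbdd ⟨n, rfl⟩) ha'

/-! ### Periodic extension and rotations -/

/-- periodic extension of a word -/
def ext {k n : ℕ} (hk : 0 < k) (w : Fin k → Fin n) (m : ℕ) : Fin n :=
  w ⟨m % k, Nat.mod_lt _ hk⟩

/-- rotation of a word -/
def rot {k n : ℕ} (hk : 0 < k) (c : ℕ) (w : Fin k → Fin n) : Fin k → Fin n :=
  fun t => ext hk w (t.val + c)

lemma ext_fin {k n : ℕ} (hk : 0 < k) (w : Fin k → Fin n) (t : Fin k) : ext hk w t.val = w t := by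
  unfold ext
  congr 1
  exact Fin.ext (Nat.mod_eq_of_lt t.isLt)

lemma ext_lt {k n : ℕ} (hk : 0 < k) (w : Fin k → Fin n) (m : ℕ) (h : m < k) :
    ext hk w m = w ⟨m, h⟩ := ext_fin hk w ⟨m, h⟩

lemma ext_mod {k n : ℕ} (hk : 0 < k) (w : Fin k → Fin n) (m : ℕ) :
    ext hk w (m % k) = ext hk w m := by
  unfold ext
  congr 1
  exact Fin.ext (Nat.mod_mod _ _)

lemma ext_add_k {k n : ℕ} (hk : 0 < k) (w : Fin k → Fin n) (m : ℕ) :
    ext hk w (m + k) = ext hk w m := by
  rw [← ext_mod hk w (m + k), Nat.add_mod_right, ext_mod]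

lemma ext_congr {k n : ℕ} (hk : 0 < k) (w : Fin k → Fin n) {a b : ℕ} (h : a % k = b % k) :
    ext hk w a = ext hk w b := by
  rw [← ext_mod hk w a, h, ext_mod]

lemma ext_rot {k n : ℕ} (hk : 0 < k) (c : ℕ) (w : Fin k → Fin n) (m : ℕ) :
    ext hk (rot hk c w) m = ext hk w (m + c) := by
  unfold ext rot ext
  congr 1
  apply Fin.ext
  simp [Nat.add_mod]

lemma rot_rot {k n : ℕ} (hk : 0 < k) (c d : ℕ) (w : Fin k → Fin n) :
    rot hk d (rot hk c w) = rot hk (d + c) w := by
  funext t
  show ext hk (rot hk c w) (t.val + d) = ext hk w (t.val + (d + c))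
  rw [ext_rot, add_assoc]

lemma rot_mul {k n : ℕ} (hk : 0 < k) (c : ℕ) (w : Fin k → Fin n) :
    rot hk (c * k) w = w := by
  funext t
  show ext hk w (t.val + c * k) = w t
  rw [← ext_mod, Nat.add_mul_mod_self_right, ext_mod, ext_fin]

lemma rot_injective {k n : ℕ} (hk : 0 < k) (c : ℕ) :
    Function.Injective (rot hk c : (Fin k → Fin n) → (Fin k → Fin n)) := by
  intro a b h
  have h1 : rot hk (c * (k - 1)) (rot hk c a) = rot hk (c * (k - 1)) (rot hk c b) := by rw [h]
  have h2 : c * (k - 1) + c = c * k := by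
    obtain ⟨m, rfl⟩ : ∃ m, k = m + 1 := ⟨k - 1, by omega⟩
    simp [Nat.mul_succ]
  rw [rot_rot, rot_rot, h2, rot_mul, rot_mul] at h1
  exact h1

lemma ext_injective {k n : ℕ} (hk : 0 < k) {w : Fin k → Fin n} (hw : Function.Injective w)
    {a b : ℕ} (h : ext hk w a = ext hk w b) : a % k = b % k := by
  unfold ext at h
  have := hw h
  exact congrArg Fin.val this

lemma rot_inj_inj {k n : ℕ} (hk : 0 < k) (c : ℕ) {w : Fin k → Fin n} (hw : Function.Injective w) :
    Function.Injective (rot hk c w) := by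
  intro s t h
  have h1 := ext_injective hk hw h
  have h2 : (s.val + c) ≡ (t.val + c) [MOD k] := h1
  have h3 : s.val ≡ t.val [MOD k] := Nat.ModEq.add_right_cancel' c h2
  have h4 : s.val % k = t.val % k := h3
  rw [Nat.mod_eq_of_lt s.isLt, Nat.mod_eq_of_lt t.isLt] at h4
  exact Fin.ext h4

lemma ext_overlap_left {k n : ℕ} (hk : 0 < k) (u v : Fin k → Fin n) (s : Fin k) (m : ℕ)
    (h : m + s.val < k) : ext hk (overlap u v s) m = ext hk u (m + s.val) := by
  rw [ext_lt hk _ m (by omega), ext_lt hk u _ h]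
  simp [overlap, h]

lemma ext_overlap_right {k n : ℕ} (hk : 0 < k) (u v : Fin k → Fin n) (s : Fin k) (m : ℕ)
    (hm : m < k) (h : k ≤ m + s.val) :
    ext hk (overlap u v s) m = ext hk v (m + s.val - k) := by
  have hs := s.isLt
  rw [ext_lt hk _ m hm, ext_lt hk v _ (by omega)]
  simp [overlap, show ¬ (m + s.val < k) by omega]

lemma overlap_self {k n : ℕ} (hk : 0 < k) (u : Fin k → Fin n) (s : Fin k) :
    overlap u u s = rot hk s.val u := by
  funext t
  have ht := t.isLt
  have hs := s.isLt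
  show overlap u u s t = ext hk u (t.val + s.val)
  by_cases h : t.val + s.val < k
  · rw [ext_lt hk u _ h]; simp [overlap, h]
  · have h1 : ext hk u (t.val + s.val) = ext hk u (t.val + s.val - k) := by
      conv_lhs => rw [show t.val + s.val = (t.val + s.val - k) + k by omega]
      rw [ext_add_k]
    rw [h1, ext_lt hk u _ (by omega)]
    simp [overlap, h]

/-! ### The construction -/

/-- First condition: the first letter exceeds the next `j` letters. -/
def Dom {n : ℕ} (j : ℕ) (f : ℕ → Fin n) : Prop := ∀ i, 0 < i → i ≤ j → f i < f 0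

/-- Second condition: no later position of the first half dominates its next `j` letters. -/
def NoDom {n : ℕ} (j : ℕ) (f : ℕ → Fin n) : Prop :=
  ∀ y, 0 < y → y < j → ∃ i, 0 < i ∧ i ≤ j ∧ f y ≤ f (y + i)

/-- Third condition: the second half is not dominated by its first letter. -/
def Half {n : ℕ} (j : ℕ) (f : ℕ → Fin n) : Prop := ∃ i, 0 < i ∧ i < j ∧ f j ≤ f (j + i)

open Classical in
/-- The code. -/
noncomputable def code (j n : ℕ) (hk : 0 < 2 * j) : Finset (Fin (2 * j) → Fin n) :=
  univ.filter (fun w => Dom j (ext hk w) ∧ NoDom j (ext hk w) ∧ Half j (ext hk w))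

lemma code_commaFree (j n : ℕ) (hk : 0 < 2 * j) : CommaFree (code j n hk) := by
  classical
  intro u hu v hv s hs hw
  simp only [code, mem_filter, mem_univ, true_and] at hu hv hw
  obtain ⟨hu1, hu2, hu3⟩ := hu
  obtain ⟨hv1, hv2, hv3⟩ := hv
  obtain ⟨hw1, hw2, hw3⟩ := hw
  have hslt := s.isLt
  rcases lt_trichotomy s.val j with h | h | h
  · obtain ⟨i, hi0, hij, hle⟩ := hu2 s.val (by omega) h
    have h1 := hw1 i hi0 hij
    rw [ext_overlap_left hk u v s i (by omega), ext_overlap_left hk u v s 0 (by omega)] at h1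
    rw [zero_add, add_comm i] at h1
    exact absurd hle (not_le.2 h1)
  · obtain ⟨i, hi0, hij, hle⟩ := hu3
    have h1 := hw1 i hi0 (by omega)
    rw [ext_overlap_left hk u v s i (by omega), ext_overlap_left hk u v s 0 (by omega)] at h1
    rw [zero_add, add_comm i, h] at h1
    exact absurd hle (not_le.2 h1)
  · obtain ⟨i, hi0, hij, hle⟩ := hw2 (2 * j - s.val) (by omega) (by omega)
    rw [ext_overlap_right hk u v s _ (by omega) (by omega),
      ext_overlap_right hk u v s _ (by omega) (by omega)] at hle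
    have e1 : 2 * j - s.val + s.val - 2 * j = 0 := by omega
    have e2 : 2 * j - s.val + i + s.val - 2 * j = i := by omega
    rw [e1, e2] at hle
    exact absurd hle (not_le.2 (hv1 i hi0 hij))

open Classical in
/-- injective words satisfying the first two conditions -/
noncomputable def pre (j n : ℕ) (hk : 0 < 2 * j) : Finset (Fin (2 * j) → Fin n) :=
  univ.filter (fun w => Function.Injective w ∧ Dom j (ext hk w) ∧ NoDom j (ext hk w))

open Classical in
/-- injective words -/
noncomputable def inj (k n : ℕ) : Finset (Fin k → Fin n) :=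
  univ.filter (fun w => Function.Injective w)

open Classical in
/-- injective words with largest letter at `s` and second largest at `t` -/
noncomputable def top (k n : ℕ) (s t : Fin k) : Finset (Fin k → Fin n) :=
  univ.filter (fun w => Function.Injective w ∧ (∀ i, i ≠ s → w i < w s) ∧
    (∀ i, i ≠ s → i ≠ t → w i < w t))

lemma card_inj (k n : ℕ) : (inj k n).card = n.descFactorial k := by
  classical
  have h := Fintype.card_embedding_eq (α := Fin k) (β := Fin n)
  rw [Fintype.card_fin, Fintype.card_fin] at h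
  rw [← h, inj, ← Fintype.card_subtype]
  exact Fintype.card_congr (Equiv.subtypeInjectiveEquivEmbedding (Fin k) (Fin n))

/-- every injective word has a rotation satisfying the first two conditions -/
lemma exists_rot (j n : ℕ) (hj : 0 < j) (hk : 0 < 2 * j) (w : Fin (2 * j) → Fin n)
    (hw : Function.Injective w) :
    ∃ c : Fin (2 * j), rot hk c.val w ∈ pre j n hk := by
  classical
  set H : Finset (Fin (2 * j)) := univ.filter
    (fun c => ∀ i, 0 < i → i ≤ j → ext hk w (c.val + i) < ext hk w c.val) with hH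
  have hne : H.Nonempty := by
    have : Nonempty (Fin (2 * j)) := ⟨⟨0, hk⟩⟩
    obtain ⟨c, -, hc⟩ := exists_max_image (univ : Finset (Fin (2 * j))) w univ_nonempty
    refine ⟨c, ?_⟩
    simp only [hH, mem_filter, mem_univ, true_and]
    intro i hi0 hij
    apply lt_of_le_of_ne
    · rw [ext_fin hk w c]
      exact hc _ (mem_univ _)
    · intro h
      have h1 := ext_injective hk hw h
      have h2 : c.val + i ≡ c.val + 0 [MOD (2 * j)] := by rw [add_zero]; exact h1
      have h3 : i ≡ 0 [MOD (2 * j)] := Nat.ModEq.add_left_cancel' _ h2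
      have h4 : i % (2 * j) = 0 := by simpa [Nat.ModEq] using h3
      rw [Nat.mod_eq_of_lt (by omega)] at h4
      omega
  obtain ⟨c, hcH, hcmin⟩ := exists_min_image H w hne
  refine ⟨c, ?_⟩
  have hcH' := hcH
  simp only [hH, mem_filter, mem_univ, true_and] at hcH'
  simp only [pre, mem_filter, mem_univ, true_and]
  refine ⟨rot_inj_inj hk _ hw, ?_, ?_⟩
  · intro i hi0 hij
    rw [ext_rot, ext_rot, zero_add, add_comm i]
    exact hcH' i hi0 hij
  · intro y hy0 hyj
    by_contra hcon
    push Not at hcon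
    have hyH : (⟨(c.val + y) % (2 * j), Nat.mod_lt _ hk⟩ : Fin (2 * j)) ∈ H := by
      simp only [hH, mem_filter, mem_univ, true_and]
      intro i hi0 hij
      have h1 := hcon i hi0 hij
      rw [ext_rot, ext_rot] at h1
      rw [ext_mod]
      have e1 : ext hk w ((c.val + y) % (2 * j) + i) = ext hk w (y + i + c.val) := by
        apply ext_congr
        rw [Nat.mod_add_mod]
        congr 1
        omega
      rw [e1, add_comm c.val y]
      exact h1
    have h2 := hcmin _ hyH
    have h3 := hcH' y hy0 (by omega)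
    rw [ext_fin] at h3
    unfold ext at h3
    exact absurd h2 (not_le.2 h3)

lemma card_pre (j n : ℕ) (hj : 0 < j) (hk : 0 < 2 * j) :
    n.descFactorial (2 * j) ≤ 2 * j * (pre j n hk).card := by
  classical
  rw [← card_inj]
  have hsub : inj (2 * j) n ⊆ (univ : Finset (Fin (2 * j))).biUnion
      (fun c => univ.filter (fun w => rot hk c.val w ∈ pre j n hk)) := by
    intro w hw
    simp only [inj, mem_filter, mem_univ, true_and] at hw
    obtain ⟨c, hc⟩ := exists_rot j n hj hk w hw
    simp only [mem_biUnion, mem_univ, true_and, mem_filter]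
    exact ⟨c, hc⟩
  calc (inj (2 * j) n).card ≤ _ := card_le_card hsub
    _ ≤ ∑ c : Fin (2 * j), (univ.filter (fun w => rot hk c.val w ∈ pre j n hk)).card :=
        card_biUnion_le
    _ ≤ ∑ c : Fin (2 * j), (pre j n hk).card := by
        apply sum_le_sum
        intro c _
        apply card_le_card_of_injOn (rot hk c.val)
        · intro w hw
          simpa using hw
        · exact (rot_injective hk c.val).injOn
    _ = 2 * j * (pre j n hk).card := by simp

lemma exists_perm {k : ℕ} (s t s' t' : Fin k) (h : s ≠ t) (h' : s' ≠ t') :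
    ∃ σ : Equiv.Perm (Fin k), σ s = s' ∧ σ t = t' := by
  classical
  refine ⟨(Equiv.swap s s').trans (Equiv.swap (Equiv.swap s s' t) t'), ?_, ?_⟩
  · simp only [Equiv.trans_apply, Equiv.swap_apply_left]
    apply Equiv.swap_apply_of_ne_of_ne
    · intro h1
      have h2 : Equiv.swap s s' s = Equiv.swap s s' t := by rw [Equiv.swap_apply_left]; exact h1
      exact h ((Equiv.swap s s').injective h2)
    · exact h'
  · simp

lemma card_top_eq {k n : ℕ} (s t s' t' : Fin k) (h : s ≠ t) (h' : s' ≠ t') :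
    (top k n s t).card ≤ (top k n s' t').card := by
  classical
  obtain ⟨σ, h1, h2⟩ := exists_perm s' t' s t h' h
  apply card_le_card_of_injOn (fun w => w ∘ σ)
  · intro w hw
    simp only [top, coe_filter, mem_univ, true_and, Set.mem_ofPred_eq] at hw ⊢
    obtain ⟨ha, hb, hc⟩ := hw
    refine ⟨ha.comp σ.injective, ?_, ?_⟩
    · intro i hi
      simp only [Function.comp, h1]
      apply hb
      intro h3
      exact hi (σ.injective (h3.trans h1.symm))
    · intro i hi hi'
      simp only [Function.comp, h2]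
      apply hc
      · intro h3
        exact hi (σ.injective (h3.trans h1.symm))
      · intro h3
        exact hi' (σ.injective (h3.trans h2.symm))
  · intro w _ w' _ hww
    simp only at hww
    funext i
    have := congrFun hww (σ.symm i)
    simpa using this

lemma card_top {k n : ℕ} (s t : Fin k) (h : s ≠ t) :
    k * (k - 1) * (top k n s t).card ≤ n.descFactorial k := by
  classical
  rw [← card_inj]
  have hdisj : ∀ p ∈ (univ : Finset (Fin k)).offDiag, ∀ q ∈ (univ : Finset (Fin k)).offDiag,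
      p ≠ q → Disjoint (top k n p.1 p.2) (top k n q.1 q.2) := by
    intro p hp q hq hpq
    rw [disjoint_left]
    intro w hw hw'
    simp only [top, mem_filter, mem_univ, true_and] at hw hw'
    obtain ⟨-, hb, hc⟩ := hw
    obtain ⟨-, hb', hc'⟩ := hw'
    simp only [mem_offDiag, mem_univ, true_and] at hp hq
    apply hpq
    have e1 : p.1 = q.1 := by
      by_contra hne
      exact absurd (hb q.1 (Ne.symm hne)) (not_lt.2 (le_of_lt (hb' p.1 hne)))
    have e2 : p.2 = q.2 := by
      by_contra hne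
      have a1 := hc q.2 (by rw [e1]; exact Ne.symm hq) (Ne.symm hne)
      have a2 := hc' p.2 (by rw [← e1]; exact Ne.symm hp) hne
      exact absurd a1 (not_lt.2 (le_of_lt a2))
    exact Prod.ext e1 e2
  have hsub : (univ : Finset (Fin k)).offDiag.biUnion (fun p => top k n p.1 p.2) ⊆ inj k n := by
    intro w hw
    simp only [mem_biUnion, top, mem_filter, mem_univ, true_and] at hw
    obtain ⟨p, -, hw, -⟩ := hw
    simp only [inj, mem_filter, mem_univ, true_and]
    exact hw
  have h1 := card_le_card hsub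
  rw [card_biUnion hdisj] at h1
  refine le_trans ?_ h1
  have h2 : ∑ p ∈ (univ : Finset (Fin k)).offDiag, (top k n s t).card
      ≤ ∑ p ∈ (univ : Finset (Fin k)).offDiag, (top k n p.1 p.2).card := by
    apply sum_le_sum
    intro p hp
    simp only [mem_offDiag, mem_univ, true_and] at hp
    exact card_top_eq s t p.1 p.2 h hp
  refine le_trans ?_ h2
  rw [sum_const, offDiag_card, card_univ, Fintype.card_fin, smul_eq_mul, Nat.mul_sub_one]

lemma pre_sub (j n : ℕ) (hj : 0 < j) (hk : 0 < 2 * j) :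
    pre j n hk ⊆ code j n hk ∪ top (2 * j) n ⟨0, hk⟩ ⟨j, by omega⟩ := by
  classical
  intro w hw
  simp only [pre, mem_filter, mem_univ, true_and] at hw
  obtain ⟨hinj, h1, h2⟩ := hw
  rw [mem_union]
  by_cases h3 : Half j (ext hk w)
  · left
    simp only [code, mem_filter, mem_univ, true_and]
    exact ⟨h1, h2, h3⟩
  · right
    unfold Half at h3
    push Not at h3
    have hj0 : ext hk w j < ext hk w 0 := h1 j hj le_rfl
    -- letters of the first half after the first are below the letter at `j`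
    have hfirst : ∀ y, 0 < y → y < j → ext hk w y < ext hk w j := by
      by_contra hcon
      push Not at hcon
      obtain ⟨y0, hy0, hy0j, hy0le⟩ := hcon
      set S : Finset ℕ := (Finset.range j).filter (fun y => 0 < y) with hS
      have hSne : S.Nonempty := ⟨y0, by simp [hS, hy0, hy0j]⟩
      obtain ⟨y, hyS, hymax⟩ := exists_max_image S (fun y => ext hk w y) hSne
      simp only [hS, mem_filter, mem_range] at hyS
      have hyge : ext hk w j ≤ ext hk w y :=
        le_trans hy0le (hymax y0 (by simp [hS, hy0, hy0j]))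
      obtain ⟨i, hi0, hij, hle⟩ := h2 y hyS.2 hyS.1
      have hmod : ∀ a b : ℕ, a < 2 * j → b < 2 * j → ext hk w a = ext hk w b → a = b := by
        intro a b ha hb hab
        have := ext_injective hk hinj hab
        rwa [Nat.mod_eq_of_lt ha, Nat.mod_eq_of_lt hb] at this
      rcases lt_trichotomy (y + i) j with hlt | heq | hgt
      · have h4 := hymax (y + i) (by simp only [hS, mem_filter, mem_range]; omega)
        have h5 := hmod y (y + i) (by omega) (by omega) (le_antisymm hle h4)
        omega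
      · rw [heq] at hle
        have h5 := hmod y j (by omega) (by omega) (le_antisymm hle hyge)
        omega
      · obtain ⟨d, hd⟩ : ∃ d, y + i = j + d := ⟨y + i - j, by omega⟩
        have h4 := h3 d (by omega) (by omega)
        rw [hd] at hle
        exact absurd (le_trans hyge hle) (not_le.2 h4)
    simp only [top, mem_filter, mem_univ, true_and]
    have e0 : w ⟨0, hk⟩ = ext hk w 0 := (ext_lt hk w 0 hk).symm
    have ej : w ⟨j, by omega⟩ = ext hk w j := (ext_lt hk w j (by omega)).symm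
    refine ⟨hinj, ?_, ?_⟩
    · intro i hi
      rw [e0, ← ext_fin hk w i]
      have hi0 : i.val ≠ 0 := fun h => hi (Fin.ext h)
      rcases le_or_gt i.val j with h | h
      · exact h1 i.val (by omega) h
      · obtain ⟨d, hd⟩ : ∃ d, i.val = j + d := ⟨i.val - j, by omega⟩
        have hilt := i.isLt
        rw [hd]
        exact lt_trans (h3 d (by omega) (by omega)) hj0
    · intro i hi hi'
      rw [ej, ← ext_fin hk w i]
      have hi0 : i.val ≠ 0 := fun h => hi (Fin.ext h)
      have hij : i.val ≠ j := fun h => hi' (Fin.ext h)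
      rcases lt_or_gt_of_ne hij with h | h
      · exact hfirst i.val (by omega) h
      · obtain ⟨d, hd⟩ : ∃ d, i.val = j + d := ⟨i.val - j, by omega⟩
        have hilt := i.isLt
        rw [hd]
        exact h3 d (by omega) (by omega)

lemma W_lower (j n : ℕ) (hj : 0 < j) :
    (2 * j - 2) * n.descFactorial (2 * j) ≤ 2 * j * (2 * j - 1) * W (2 * j) n := by
  classical
  have hk : 0 < 2 * j := by omega
  have h1 := card_pre j n hj hk
  have h2 := card_le_card (pre_sub j n hj hk)
  have h3 := card_union_le (code j n hk) (top (2 * j) n ⟨0, hk⟩ ⟨j, by omega⟩)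
  have h4 : 2 * j * (2 * j - 1) * (top (2 * j) n ⟨0, hk⟩ ⟨j, by omega⟩).card
      ≤ n.descFactorial (2 * j) := by
    apply card_top
    intro h
    have := congrArg Fin.val h
    simp only at this
    omega
  have h5 := card_le_W (code_commaFree j n hk)
  have h6 : (pre j n hk).card ≤ W (2 * j) n + (top (2 * j) n ⟨0, hk⟩ ⟨j, by omega⟩).card := by
    omega
  obtain ⟨m, hm⟩ : ∃ m, 2 * j = m + 2 := ⟨2 * j - 2, by omega⟩
  have e1 : 2 * j - 2 = m := by omega
  have e2 : 2 * j - 1 = m + 1 := by omega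
  rw [e1, e2] 
  rw [e2] at h4
  set N := n.descFactorial (2 * j) with hN
  set T := (top (2 * j) n ⟨0, hk⟩ ⟨j, by omega⟩).card with hT
  set P := (pre j n hk).card with hP
  set Wn := W (2 * j) n with hWn
  -- (m+1) N ≤ (m+1) 2j P ≤ (m+1) 2j (W + T) ≤ 2j (m+1) W + N
  have h7 : (m + 1) * N ≤ (m + 1) * (2 * j * P) := Nat.mul_le_mul_left _ h1
  have h8 : (m + 1) * (2 * j * P) ≤ (m + 1) * (2 * j * (Wn + T)) :=
    Nat.mul_le_mul_left _ (Nat.mul_le_mul_left _ h6)
  have h9 : (m + 1) * (2 * j * (Wn + T)) = 2 * j * (m + 1) * Wn + 2 * j * (m + 1) * T := by ring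
  have h10 : (m + 1) * N = m * N + N := by ring
  omega

/-! ### Boxes -/

open Classical in
/-- pairs spanning a box contained in `A` -/
noncomputable def boxes {V : Type} [Fintype V] (j : ℕ) (A : Finset (Fin j → V)) :
    Finset ((Fin j → V) × (Fin j → V)) :=
  univ.filter (fun p => ∀ z : Fin j → V, (∀ i, z i = p.1 i ∨ z i = p.2 i) → z ∈ A)

lemma box_ineq {V : Type} [Fintype V] (j : ℕ) : ∀ A : Finset (Fin j → V),
    ((A.card : ℕ) : ℝ) ^ (2 ^ j) ≤ ((boxes j A).card : ℝ) * ((Fintype.card V : ℕ) : ℝ) ^ (j * 2 ^ j - 2 * j) := by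
  classical
  induction j with
  | zero =>
    intro A
    simp only [pow_zero, pow_one, mul_zero, Nat.sub_self, mul_one]
    have h : A.card ≤ (boxes 0 A).card := by
      apply card_le_card_of_injOn (fun x => (x, x))
      · intro x hx
        simp only [boxes, coe_filter, mem_univ, true_and, Set.mem_ofPred_eq]
        intro z _
        rw [Subsingleton.elim z x]
        exact hx
      · intro x _ y _ h
        exact (Prod.ext_iff.1 h).1
    exact_mod_cast h
  | succ j ih =>
    intro A
    set N : ℝ := ((Fintype.card V : ℕ) : ℝ) with hN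
    -- sections
    let Sec : V → Finset (Fin j → V) := fun v => univ.filter (fun y => Fin.cons v y ∈ A)
    -- total size
    have hA : (A.card : ℝ) = ∑ v : V, ((Sec v).card : ℝ) := by
      have : A.card = ∑ v : V, (Sec v).card := by
        rw [← card_sigma]
        apply card_bij' (fun (x : Fin (j + 1) → V) _ => (⟨x 0, fun i => x i.succ⟩ : Σ _ : V, (Fin j → V)))
          (fun (p : Σ _ : V, (Fin j → V)) _ => (Fin.cons p.1 p.2 : Fin (j + 1) → V))
        · intro x hx
          simp only [mem_sigma, mem_univ, true_and, Sec, mem_filter]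
          have : (Fin.cons (x 0) (fun i => x i.succ) : Fin (j + 1) → V) = x := by
            funext i; refine Fin.cases ?_ (fun i => ?_) i <;> simp
          rw [this]; exact hx
        · intro p hp
          simp only [mem_sigma, mem_univ, true_and, Sec, mem_filter] at hp
          exact hp
        · intro x _
          funext i; refine Fin.cases ?_ (fun i => ?_) i <;> simp
        · intro p _
          simp
      rw [this]; push_cast; rfl
    -- degree of y
    let d : (Fin j → V) → ℝ := fun y => ∑ v : V, if y ∈ Sec v then (1 : ℝ) else 0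
    have hd : ∑ v : V, ((Sec v).card : ℝ) = ∑ y : Fin j → V, d y := by
      simp only [d]
      rw [sum_comm]
      apply sum_congr rfl
      intro v _
      simp
    have hpair : ∑ p : V × V, ((Sec p.1 ∩ Sec p.2).card : ℝ) = ∑ y : Fin j → V, (d y) ^ 2 := by
      have h1 : ∀ p : V × V, ((Sec p.1 ∩ Sec p.2).card : ℝ)
          = ∑ y : Fin j → V, (if y ∈ Sec p.1 then (1 : ℝ) else 0) * (if y ∈ Sec p.2 then (1 : ℝ) else 0) := by
        intro p
        have : ∀ y : Fin j → V, (if y ∈ Sec p.1 then (1 : ℝ) else 0) * (if y ∈ Sec p.2 then (1 : ℝ) else 0)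
            = if y ∈ Sec p.1 ∩ Sec p.2 then (1 : ℝ) else 0 := by
          intro y
          by_cases h1 : y ∈ Sec p.1 <;> by_cases h2 : y ∈ Sec p.2 <;> simp [h1, h2]
        simp_rw [this]
        rw [sum_boole]
        congr 2
        ext x
        simp
      simp_rw [h1]
      rw [sum_comm]
      apply sum_congr rfl
      intro y _
      rw [sq, Fintype.sum_prod_type]
      simp only [d]
      rw [sum_mul_sum]
    have hcs : (A.card : ℝ) ^ 2 ≤ N ^ j * ∑ p : V × V, ((Sec p.1 ∩ Sec p.2).card : ℝ) := by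
      rw [hpair, hA, hd]
      have := sq_sum_le_card_mul_sum_sq (s := (univ : Finset (Fin j → V))) (f := d)
      rw [card_univ, Fintype.card_fun, Fintype.card_fin] at this
      push_cast at this
      exact this
    have hpm : (∑ p : V × V, ((Sec p.1 ∩ Sec p.2).card : ℝ)) ^ (2 ^ j)
        ≤ (N ^ 2) ^ (2 ^ j - 1) * ∑ p : V × V, ((Sec p.1 ∩ Sec p.2).card : ℝ) ^ (2 ^ j) := by
      have h1 := pow_sum_le_card_mul_sum_pow (s := (univ : Finset (V × V)))
        (f := fun p => ((Sec p.1 ∩ Sec p.2).card : ℝ)) (fun p _ => by positivity) (2 ^ j - 1)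
      have h2 : 2 ^ j - 1 + 1 = 2 ^ j := Nat.sub_add_cancel (Nat.one_le_two_pow)
      rw [h2, card_univ, Fintype.card_prod] at h1
      push_cast at h1
      rw [sq]
      exact h1
    have hbox : ∑ p : V × V, ((boxes j (Sec p.1 ∩ Sec p.2)).card : ℝ) ≤ ((boxes (j + 1) A).card : ℝ) := by
      have : ∑ p : V × V, (boxes j (Sec p.1 ∩ Sec p.2)).card ≤ (boxes (j + 1) A).card := by
        rw [← card_sigma]
        apply card_le_card_of_injOn (fun (q : Σ _ : V × V, ((Fin j → V) × (Fin j → V))) =>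
          ((Fin.cons q.1.1 q.2.1 : Fin (j + 1) → V), (Fin.cons q.1.2 q.2.2 : Fin (j + 1) → V)))
        · rintro ⟨⟨v, v'⟩, ⟨y, y'⟩⟩ hq
          simp only [coe_sigma, coe_univ, Set.mem_sigma_iff, Set.mem_univ, true_and, mem_coe, boxes,
            mem_filter, mem_univ] at hq
          simp only [boxes, coe_filter, mem_univ, true_and, Set.mem_ofPred_eq]
          intro z hz
          have h0 := hz 0
          simp only [Fin.cons_zero] at h0
          have h1 := hq (fun i => z i.succ) (fun i => by simpa using hz i.succ)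
          rw [mem_inter] at h1
          simp only [Sec, mem_filter, mem_univ, true_and] at h1
          have hz' : (Fin.cons (z 0) (fun i => z i.succ) : Fin (j + 1) → V) = z := by
            funext i; refine Fin.cases ?_ (fun i => ?_) i <;> simp
          rcases h0 with h0 | h0
          · rw [← hz', h0]; exact h1.1
          · rw [← hz', h0]; exact h1.2
        · rintro ⟨⟨v, v'⟩, ⟨y, y'⟩⟩ - ⟨⟨w, w'⟩, ⟨x, x'⟩⟩ - h
          simp only [Prod.mk.injEq] at h
          obtain ⟨h1, h2⟩ := h
          have a1 := congrFun h1 0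
          have a2 := congrFun h2 0
          simp only [Fin.cons_zero] at a1 a2
          have b1 : y = x := by funext i; simpa using congrFun h1 i.succ
          have b2 : y' = x' := by funext i; simpa using congrFun h2 i.succ
          subst a1 a2 b1 b2
          rfl
      exact_mod_cast this
    have hN0 : 0 ≤ N := by rw [hN]; positivity
    have e1 : 2 ^ (j + 1) = 2 * 2 ^ j := by rw [pow_succ]; ring
    calc (A.card : ℝ) ^ (2 ^ (j + 1)) = ((A.card : ℝ) ^ 2) ^ (2 ^ j) := by rw [e1, pow_mul]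
      _ ≤ (N ^ j * ∑ p : V × V, ((Sec p.1 ∩ Sec p.2).card : ℝ)) ^ (2 ^ j) :=
          pow_le_pow_left₀ (by positivity) hcs _
      _ = N ^ (j * 2 ^ j) * (∑ p : V × V, ((Sec p.1 ∩ Sec p.2).card : ℝ)) ^ (2 ^ j) := by
          rw [mul_pow, ← pow_mul]
      _ ≤ N ^ (j * 2 ^ j) * ((N ^ 2) ^ (2 ^ j - 1) *
            ∑ p : V × V, ((Sec p.1 ∩ Sec p.2).card : ℝ) ^ (2 ^ j)) := by
          apply mul_le_mul_of_nonneg_left hpm (by positivity)
      _ ≤ N ^ (j * 2 ^ j) * ((N ^ 2) ^ (2 ^ j - 1) *
            ∑ p : V × V, (((boxes j (Sec p.1 ∩ Sec p.2)).card : ℝ) * N ^ (j * 2 ^ j - 2 * j))) := by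
          apply mul_le_mul_of_nonneg_left _ (by positivity)
          apply mul_le_mul_of_nonneg_left _ (by positivity)
          apply sum_le_sum
          intro p _
          exact ih _
      _ = (∑ p : V × V, ((boxes j (Sec p.1 ∩ Sec p.2)).card : ℝ)) *
            (N ^ (j * 2 ^ j) * (N ^ 2) ^ (2 ^ j - 1) * N ^ (j * 2 ^ j - 2 * j)) := by
          rw [← sum_mul]; ring
      _ ≤ ((boxes (j + 1) A).card : ℝ) *
            (N ^ (j * 2 ^ j) * (N ^ 2) ^ (2 ^ j - 1) * N ^ (j * 2 ^ j - 2 * j)) := by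
          apply mul_le_mul_of_nonneg_right hbox (by positivity)
      _ = ((boxes (j + 1) A).card : ℝ) * N ^ ((j + 1) * 2 ^ (j + 1) - 2 * (j + 1)) := by
          congr 1
          rw [← pow_mul, ← pow_add, ← pow_add]
          congr 1
          have h2 : 1 ≤ 2 ^ j := Nat.one_le_two_pow
          have h3 : 2 * j ≤ j * 2 ^ j := by
            rcases Nat.eq_zero_or_pos j with h | h
            · subst h; simp
            · have : 2 ^ 1 ≤ 2 ^ j := Nat.pow_le_pow_right (by norm_num) h
              calc 2 * j = j * 2 ^ 1 := by ring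
                _ ≤ j * 2 ^ j := Nat.mul_le_mul_left _ this
          have h4 : (j + 1) * 2 ^ (j + 1) = j * 2 ^ j + j * 2 ^ j + 2 * 2 ^ j := by rw [e1]; ring
          have h5 : 2 * (2 ^ j - 1) = 2 * 2 ^ j - 2 := by omega
          omega

/-- many monochromatic boxes -/
lemma mono_boxes {V Γ : Type} [Fintype V] [Fintype Γ] [DecidableEq Γ] [Nonempty V] (j : ℕ)
    (col : (Fin j → V) → Γ) :
    ((Fintype.card V : ℕ) : ℝ) ^ (2 * j) ≤
      ((Fintype.card Γ : ℕ) : ℝ) ^ (2 ^ j - 1) *
        ((∑ g : Γ, (boxes j (univ.filter (fun y => col y = g))).card : ℕ) : ℝ) := by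
  classical
  set N : ℝ := ((Fintype.card V : ℕ) : ℝ) with hN
  have hNpos : 0 < N := by rw [hN]; exact_mod_cast Fintype.card_pos
  have h1 : ∑ g : Γ, ((univ.filter (fun y => col y = g)).card : ℝ) = N ^ j := by
    have : ∑ g : Γ, (univ.filter (fun y => col y = g)).card = Fintype.card (Fin j → V) := by
      rw [← card_univ]
      exact (card_eq_sum_card_fiberwise (fun x _ => mem_univ (col x))).symm
    rw [Fintype.card_fun, Fintype.card_fin] at this
    rw [hN]
    exact_mod_cast this
  have h2 := pow_sum_le_card_mul_sum_pow (s := (univ : Finset Γ))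
    (f := fun g => ((univ.filter (fun y => col y = g)).card : ℝ)) (fun p _ => by positivity) (2 ^ j - 1)
  have h3 : 2 ^ j - 1 + 1 = 2 ^ j := Nat.sub_add_cancel (Nat.one_le_two_pow)
  rw [h3, h1, card_univ] at h2
  have h4 : ∑ g : Γ, ((univ.filter (fun y => col y = g)).card : ℝ) ^ (2 ^ j)
      ≤ (∑ g : Γ, ((boxes j (univ.filter (fun y => col y = g))).card : ℝ)) * N ^ (j * 2 ^ j - 2 * j) := by
    rw [sum_mul]
    apply sum_le_sum
    intro g _
    exact box_ineq j _
  have h5 : 2 * j ≤ j * 2 ^ j := by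
    rcases Nat.eq_zero_or_pos j with h | h
    · subst h; simp
    · have : 2 ^ 1 ≤ 2 ^ j := Nat.pow_le_pow_right (by norm_num) h
      calc 2 * j = j * 2 ^ 1 := by ring
        _ ≤ j * 2 ^ j := Nat.mul_le_mul_left _ this
  have h6 : (N ^ j) ^ (2 ^ j) = N ^ (2 * j) * N ^ (j * 2 ^ j - 2 * j) := by
    rw [← pow_mul, ← pow_add]
    congr 1
    omega
  rw [h6] at h2
  have h7 : N ^ (2 * j) * N ^ (j * 2 ^ j - 2 * j) ≤
      (((Fintype.card Γ : ℕ) : ℝ) ^ (2 ^ j - 1) *
        (∑ g : Γ, ((boxes j (univ.filter (fun y => col y = g))).card : ℝ))) * N ^ (j * 2 ^ j - 2 * j) := by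
    refine le_trans h2 ?_
    rw [mul_assoc]
    exact mul_le_mul_of_nonneg_left h4 (by positivity)
  have h8 := le_of_mul_le_mul_right h7 (by positivity)
  push_cast
  exact h8

/-! ### The upper bound -/

/-- first half of a word -/
def fst {j n : ℕ} (w : Fin (2 * j) → Fin n) : Fin j → Fin n :=
  fun t => w ⟨t.val, by have := t.isLt; omega⟩

/-- second half of a word -/
def snd {j n : ℕ} (w : Fin (2 * j) → Fin n) : Fin j → Fin n :=
  fun t => w ⟨t.val + j, by have := t.isLt; omega⟩

/-- join two half words -/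
def join {j n : ℕ} (x y : Fin j → Fin n) : Fin (2 * j) → Fin n :=
  fun t => if h : t.val < j then x ⟨t.val, h⟩
    else y ⟨t.val - j, by have := t.isLt; omega⟩

lemma fst_join {j n : ℕ} (x y : Fin j → Fin n) : fst (join x y) = x := by
  funext t
  simp [fst, join]

lemma snd_join {j n : ℕ} (x y : Fin j → Fin n) : snd (join x y) = y := by
  funext t
  simp [snd, join]

open Classical in
/-- the type of a half word -/
noncomputable def lam {j n : ℕ} (D : Finset (Fin (2 * j) → Fin n)) (y : Fin j → Fin n) : Fin 3 :=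
  if ∃ w ∈ D, fst w = y then (if ∃ w ∈ D, snd w = y then 1 else 0) else 2

lemma lam_ne {j n : ℕ} (hj : 0 < j) {D : Finset (Fin (2 * j) → Fin n)} (hD : CommaFree D)
    {w : Fin (2 * j) → Fin n} (hw : w ∈ D) : lam D (fst w) ≠ lam D (snd w) := by
  classical
  intro h
  have h1 : ∃ u ∈ D, fst u = fst w := ⟨w, hw, rfl⟩
  have h2 : ∃ u ∈ D, snd u = snd w := ⟨w, hw, rfl⟩
  unfold lam at h
  rw [if_pos h1] at h
  by_cases h3 : ∃ u ∈ D, snd u = fst w
  · by_cases h4 : ∃ v ∈ D, fst v = snd w
    · obtain ⟨u, hu, hu'⟩ := h3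
      obtain ⟨v, hv, hv'⟩ := h4
      apply hD u hu v hv ⟨j, by omega⟩ (by simp only; omega)
      have : overlap u v ⟨j, by omega⟩ = w := by
        funext t
        have ht := t.isLt
        unfold overlap
        by_cases hlt : t.val + j < 2 * j
        · have h5 := congrFun hu' ⟨t.val, by omega⟩
          simp only [fst, snd] at h5
          simp only [hlt, dif_pos]
          exact h5
        · have h5 := congrFun hv' ⟨t.val - j, by omega⟩
          simp only [fst, snd] at h5
          simp only [hlt, dif_neg, not_false_eq_true]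
          have e1 : (⟨t.val + j - 2 * j, by omega⟩ : Fin (2 * j)) = ⟨t.val - j, by omega⟩ :=
            Fin.ext (by simp only; omega)
          have e2 : (⟨t.val - j + j, by omega⟩ : Fin (2 * j)) = t :=
            Fin.ext (by simp only; omega)
          rw [e2] at h5
          rw [e1]
          exact h5
      rw [this]
      exact hw
    · rw [if_pos h3, if_neg h4] at h
      exact absurd h (by decide)
  · rw [if_neg h3] at h
    by_cases h4 : ∃ v ∈ D, fst v = snd w
    · rw [if_pos h4, if_pos h2] at h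
      exact absurd h (by decide)
    · rw [if_neg h4] at h
      exact absurd h (by decide)

/-- the colour of a half word -/
noncomputable def col {j n : ℕ} (hj : 0 < j) (D : Finset (Fin (2 * j) → Fin n))
    (y : Fin j → Fin n) : Fin j → Fin 3 := fun c => lam D (rot hj c.val y)

lemma ext_join {j n : ℕ} (hj : 0 < j) (hk : 0 < 2 * j) (x y : Fin j → Fin n) (i : Fin j) (m : ℕ)
    (h : m % j = i.val) : ext hk (join x y) m = x i ∨ ext hk (join x y) m = y i := by
  have h1 : m % (2 * j) < 2 * j := Nat.mod_lt _ hk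
  have h2 : (m % (2 * j)) % j = i.val := by
    rw [Nat.mod_mod_of_dvd m (Dvd.intro_left 2 rfl)]; exact h
  rw [← ext_mod hk, ext_lt hk _ _ h1]
  by_cases h3 : m % (2 * j) < j
  · left
    rw [Nat.mod_eq_of_lt h3] at h2
    simp only [join, h3, dif_pos]
    congr 1
    exact Fin.ext h2
  · right
    have h4 : (m % (2 * j)) % j = m % (2 * j) - j := by
      rw [Nat.mod_eq_sub_mod (by omega), Nat.mod_eq_of_lt (by omega)]
    simp only [join, h3, dif_neg, not_false_eq_true]
    congr 1
    apply Fin.ext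
    simp only
    omega

open Classical in
lemma box_not_mem {j n : ℕ} (hj : 0 < j) (hk : 0 < 2 * j) {D : Finset (Fin (2 * j) → Fin n)}
    (hD : CommaFree D) (g : Fin j → Fin 3) (x y : Fin j → Fin n)
    (h : (x, y) ∈ boxes j (univ.filter (fun z => col hj D z = g))) (c : ℕ) :
    rot hk c (join x y) ∉ D := by
  intro hw
  simp only [boxes, mem_filter, mem_univ, true_and] at h
  set w := rot hk c (join x y) with hwdef
  have hcj : c % j < j := Nat.mod_lt _ hj
  have key : ∀ v : Fin j → Fin n, (∀ i : Fin j, ∃ s : ℕ, v i = ext hk (join x y) (i.val + s * j + c)) →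
      lam D v = g ⟨c % j, hcj⟩ := by
    intro v hv
    have hz := h (rot hj ((c % j) * (j - 1)) v) ?_
    · have h1 := congrFun hz ⟨c % j, hcj⟩
      rw [← h1]
      unfold col
      simp only
      rw [rot_rot]
      have e : c % j + c % j * (j - 1) = (c % j) * j := by
        obtain ⟨m, rfl⟩ : ∃ m, j = m + 1 := ⟨j - 1, by omega⟩
        simp only [Nat.add_sub_cancel]
        ring
      rw [e, rot_mul]
    · intro i
      obtain ⟨s, hs⟩ := hv ⟨(i.val + (c % j) * (j - 1)) % j, Nat.mod_lt _ hj⟩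
      have e1 : rot hj ((c % j) * (j - 1)) v i =
          v ⟨(i.val + (c % j) * (j - 1)) % j, Nat.mod_lt _ hj⟩ := rfl
      rw [e1, hs]
      apply ext_join hj hk x y i
      simp only
      have e2 : (i.val + c % j * (j - 1)) % j + s * j + c ≡ i.val [MOD j] := by
        have a1 : (i.val + c % j * (j - 1)) % j ≡ i.val + c % j * (j - 1) [MOD j] := Nat.mod_modEq _ _
        have a2 : c ≡ c % j [MOD j] := (Nat.mod_modEq _ _).symm
        have a3 : s * j ≡ 0 [MOD j] := by simp [Nat.ModEq]
        calc (i.val + c % j * (j - 1)) % j + s * j + c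
            ≡ (i.val + c % j * (j - 1)) + 0 + c % j [MOD j] := (a1.add a3).add a2
          _ = i.val + (c % j) * j := by
              obtain ⟨m, rfl⟩ : ∃ m, j = m + 1 := ⟨j - 1, by omega⟩
              simp only [Nat.add_sub_cancel]
              ring
          _ ≡ i.val [MOD j] := by simp [Nat.ModEq]
      have e3 : ((i.val + c % j * (j - 1)) % j + s * j + c) % j = i.val % j := e2
      rw [e3, Nat.mod_eq_of_lt i.isLt]
  have h1 : lam D (fst w) = g ⟨c % j, hcj⟩ := by
    apply key
    intro i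
    exact ⟨0, by rw [zero_mul, add_zero]; rfl⟩
  have h2 : lam D (snd w) = g ⟨c % j, hcj⟩ := by
    apply key
    intro i
    exact ⟨1, by rw [one_mul]; rfl⟩
  exact lam_ne hj hD hw (h1.trans h2.symm)

lemma rot_prod_inj {k n : ℕ} (hk : 0 < k) {D : Finset (Fin k → Fin n)} (hD : CommaFree D)
    {w w' : Fin k → Fin n} (hw : w ∈ D) (hw' : w' ∈ D) {c c' : Fin k} (hcc : c.val ≤ c'.val)
    (h : rot hk c.val w = rot hk c'.val w') : w = w' ∧ c = c' := by
  have hc' := c'.isLt
  have h1 : rot hk c.val w = rot hk c.val (rot hk (c'.val - c.val) w') := by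
    rw [rot_rot, h]
    congr 1
    omega
  have h2 := rot_injective hk c.val h1
  by_cases h3 : c'.val - c.val = 0
  · have h4 : c = c' := Fin.ext (by omega)
    subst h4
    exact ⟨rot_injective hk _ h, rfl⟩
  · exfalso
    apply hD w' hw' w' hw' ⟨c'.val - c.val, by omega⟩ h3
    rw [overlap_self hk]
    simp only
    rw [← h2]
    exact hw

lemma upper {j n : ℕ} (hj : 0 < j) (hn : 0 < n) {D : Finset (Fin (2 * j) → Fin n)}
    (hD : CommaFree D) :
    (2 * j : ℝ) * (D.card : ℝ) ≤ (1 - 1 / (3 : ℝ) ^ (j * (2 ^ j - 1))) * (n : ℝ) ^ (2 * j) := by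
  classical
  have hk : 0 < 2 * j := by omega
  have : Nonempty (Fin n) := ⟨⟨0, hn⟩⟩
  set B : (Fin j → Fin 3) → Finset ((Fin j → Fin n) × (Fin j → Fin n)) :=
    fun g => boxes j (univ.filter (fun z => col hj D z = g)) with hB
  -- the words covered by rotations
  set R : Finset (Fin (2 * j) → Fin n) :=
    (D ×ˢ (univ : Finset (Fin (2 * j)))).image (fun p => rot hk p.2.val p.1) with hR
  set P : Finset (Fin (2 * j) → Fin n) :=
    ((univ : Finset (Fin j → Fin 3)).biUnion B).image (fun p => join p.1 p.2) with hP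
  have hRc : R.card = D.card * (2 * j) := by
    rw [hR, card_image_of_injOn]
    · simp
    · rintro ⟨w, c⟩ hw ⟨w', c'⟩ hw' h
      simp only [coe_product, coe_univ, Set.mem_prod, mem_coe, Set.mem_univ, and_true] at hw hw'
      simp only at h
      rcases le_total c.val c'.val with hcc | hcc
      · obtain ⟨a, b⟩ := rot_prod_inj hk hD hw hw' hcc h
        rw [a, b]
      · obtain ⟨a, b⟩ := rot_prod_inj hk hD hw' hw hcc h.symm
        rw [a, b]
  have hPc : P.card = ∑ g : Fin j → Fin 3, (B g).card := by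
    rw [hP, card_image_of_injOn, card_biUnion]
    · intro g _ g' _ hgg
      show Disjoint (B g) (B g')
      rw [disjoint_left]
      rintro ⟨x, y⟩ h1 h2
      simp only [hB, boxes, mem_filter, mem_univ, true_and] at h1 h2
      exact hgg ((h1 x (fun i => Or.inl rfl)).symm.trans (h2 x (fun i => Or.inl rfl)))
    · rintro ⟨x, y⟩ - ⟨x', y'⟩ - h
      simp only at h
      have h1 := congrArg fst h
      have h2 := congrArg snd h
      rw [fst_join, fst_join] at h1
      rw [snd_join, snd_join] at h2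
      rw [h1, h2]
  have hdisj : Disjoint R P := by
    rw [disjoint_left]
    intro u hu hu'
    simp only [hR, mem_image, mem_product, mem_univ, and_true, Prod.exists] at hu
    obtain ⟨w, c, hw, rfl⟩ := hu
    simp only [hP, mem_image, mem_biUnion, mem_univ, true_and, Prod.exists] at hu'
    obtain ⟨x, y, ⟨g, hg⟩, hxy⟩ := hu'
    have h1 := box_not_mem hj hk hD g x y hg (c.val * (2 * j - 1))
    apply h1
    rw [hxy, rot_rot]
    have e' : ∀ m d : ℕ, 0 < m → d * (m - 1) + d = d * m := by
      intro m d hm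
      obtain ⟨m, rfl⟩ : ∃ m', m = m' + 1 := ⟨m - 1, by omega⟩
      simp only [Nat.add_sub_cancel]
      ring
    have e : c.val * (2 * j - 1) + c.val = c.val * (2 * j) := e' _ _ hk
    rw [e, rot_mul]
    exact hw
  have hsum : R.card + P.card ≤ n ^ (2 * j) := by
    rw [← card_union_of_disjoint hdisj]
    calc (R ∪ P).card ≤ (univ : Finset (Fin (2 * j) → Fin n)).card := card_le_univ _
      _ = n ^ (2 * j) := by simp
  rw [hRc, hPc] at hsum
  have hmono := mono_boxes (V := Fin n) (Γ := Fin j → Fin 3) j (col hj D)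
  rw [Fintype.card_fin, Fintype.card_fun, Fintype.card_fin, Fintype.card_fin] at hmono
  have hsum' : (D.card : ℝ) * (2 * j) + ((∑ g : Fin j → Fin 3, (B g).card : ℕ) : ℝ) ≤ (n : ℝ) ^ (2 * j) := by
    exact_mod_cast hsum
  have e3 : (((3 ^ j : ℕ) : ℝ)) ^ (2 ^ j - 1) = (3 : ℝ) ^ (j * (2 ^ j - 1)) := by
    push_cast
    rw [← pow_mul]
  rw [e3] at hmono
  have hpos : (0 : ℝ) < (3 : ℝ) ^ (j * (2 ^ j - 1)) := by positivity
  have h5 : (n : ℝ) ^ (2 * j) / (3 : ℝ) ^ (j * (2 ^ j - 1)) ≤
      ((∑ g : Fin j → Fin 3, (B g).card : ℕ) : ℝ) := by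
    rw [div_le_iff₀ hpos]
    exact hmono.trans (le_of_eq (mul_comm _ _))
  have h6 : (1 - 1 / (3 : ℝ) ^ (j * (2 ^ j - 1))) * (n : ℝ) ^ (2 * j)
      = (n : ℝ) ^ (2 * j) - (n : ℝ) ^ (2 * j) / (3 : ℝ) ^ (j * (2 ^ j - 1)) := by
    ring
  rw [h6]
  linarith

/-! ### The result -/

lemma limit_lower (j : ℕ) (hj : 2 ≤ j) (a : ℝ)
    (ha : Tendsto (fun n : ℕ => (W (2 * j) n : ℝ) / (n : ℝ) ^ (2 * j)) atTop (𝓝 a)) :
    (1 / (2 * (j : ℝ))) * (1 - 1 / (2 * (j : ℝ) - 1)) ≤ a := by
  have hj' : (2 : ℝ) ≤ j := by exact_mod_cast hj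
  have h1 : Tendsto (fun n : ℕ => ((n.descFactorial (2 * j) : ℕ) : ℝ) / (n : ℝ) ^ (2 * j)) atTop (𝓝 1) := by
    have h := isEquivalent_descFactorial (2 * j)
    rw [Asymptotics.isEquivalent_iff_tendsto_one] at h
    · exact h
    · filter_upwards [eventually_gt_atTop 0] with n hn
      have : (0 : ℝ) < (n : ℝ) ^ (2 * j) := by positivity
      exact ne_of_gt this
  have h2 : Tendsto (fun n : ℕ => ((1 / (2 * (j : ℝ))) * (1 - 1 / (2 * (j : ℝ) - 1))) *
      (((n.descFactorial (2 * j) : ℕ) : ℝ) / (n : ℝ) ^ (2 * j))) atTop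
      (𝓝 (((1 / (2 * (j : ℝ))) * (1 - 1 / (2 * (j : ℝ) - 1))) * 1)) := h1.const_mul _
  rw [mul_one] at h2
  refine le_of_tendsto_of_tendsto h2 ha ?_
  filter_upwards [eventually_gt_atTop 0] with n hn
  rw [← mul_div_assoc]
  apply div_le_div_of_nonneg_right _ (by positivity)
  have h3 := W_lower j n (by omega)
  have e1 : ((2 * j - 2 : ℕ) : ℝ) = 2 * j - 2 := by
    rw [Nat.cast_sub (by omega)]; push_cast; ring
  have e2 : ((2 * j - 1 : ℕ) : ℝ) = 2 * j - 1 := by
    rw [Nat.cast_sub (by omega)]; push_cast; ring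
  have h4 : (2 * (j : ℝ) - 2) * (n.descFactorial (2 * j) : ℝ) ≤
      2 * j * (2 * j - 1) * (W (2 * j) n : ℝ) := by
    rw [← e1, ← e2]
    exact_mod_cast h3
  have e3 : (1 / (2 * (j : ℝ))) * (1 - 1 / (2 * (j : ℝ) - 1)) * (n.descFactorial (2 * j) : ℝ)
      = ((2 * (j : ℝ) - 2) * (n.descFactorial (2 * j) : ℝ)) / (2 * j * (2 * j - 1)) := by
    have : 2 * (j : ℝ) - 1 ≠ 0 := by linarith
    field_simp
    ring
  rw [e3, div_le_iff₀ (by nlinarith)]
  linarith

lemma limit_upper (j : ℕ) (hj : 1 ≤ j) (a : ℝ)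
    (ha : Tendsto (fun n : ℕ => (W (2 * j) n : ℝ) / (n : ℝ) ^ (2 * j)) atTop (𝓝 a)) :
    a ≤ (1 / (2 * (j : ℝ))) * (1 - 1 / (3 : ℝ) ^ (j * (2 ^ j - 1))) := by
  have hj' : (1 : ℝ) ≤ j := by exact_mod_cast hj
  apply le_of_tendsto ha
  filter_upwards [eventually_gt_atTop 0] with n hn
  obtain ⟨D, hD, hDc⟩ := exists_W (2 * j) n
  have h := upper (by omega : 0 < j) hn hD
  rw [hDc] at h
  have hn' : (0 : ℝ) < (n : ℝ) ^ (2 * j) := by positivity
  rw [div_le_iff₀ hn']
  have hj0 : (0 : ℝ) < 2 * j := by linarith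
  have e : (1 / (2 * (j : ℝ))) * (1 - 1 / (3 : ℝ) ^ (j * (2 ^ j - 1))) * (n : ℝ) ^ (2 * j)
      = ((1 - 1 / (3 : ℝ) ^ (j * (2 ^ j - 1))) * (n : ℝ) ^ (2 * j)) / (2 * j) := by
    field_simp
  rw [e, le_div_iff₀ hj0]
  linarith

theorem result : ∃ α : ℕ → ℝ,
    (∀ k, 1 ≤ k → Tendsto (fun n : ℕ => (W k n : ℝ) / (n : ℝ) ^ k) atTop (𝓝 (α k))) ∧
    (∀ j : ℕ, 2 ≤ j →
      (1 / (2 * (j : ℝ))) * (1 - 1 / (2 * (j : ℝ) - 1)) ≤ α (2 * j) ∧
      α (2 * j) ≤ (1 / (2 * (j : ℝ))) * (1 - 1 / (3 : ℝ) ^ (j * (2 ^ j - 1)))) ∧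
    (∀ j : ℕ, 2 ≤ j → α (2 * j) < 1 / (2 * (j : ℝ))) ∧
    Tendsto (fun j : ℕ => (2 * (j : ℝ)) * α (2 * j)) atTop (𝓝 1) := by
  have hex : ∀ k : ℕ, ∃ a : ℝ, 1 ≤ k →
      Tendsto (fun n : ℕ => (W k n : ℝ) / (n : ℝ) ^ k) atTop (𝓝 a) := by
    intro k
    by_cases hk : 1 ≤ k
    · obtain ⟨a, ha⟩ := exists_limit k hk
      exact ⟨a, fun _ => ha⟩
    · exact ⟨0, fun h => absurd h hk⟩
  choose α hα using hex
  have hlow : ∀ j : ℕ, 2 ≤ j → (1 / (2 * (j : ℝ))) * (1 - 1 / (2 * (j : ℝ) - 1)) ≤ α (2 * j) :=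
    fun j hj => limit_lower j hj _ (hα (2 * j) (by omega))
  have hup : ∀ j : ℕ, 2 ≤ j →
      α (2 * j) ≤ (1 / (2 * (j : ℝ))) * (1 - 1 / (3 : ℝ) ^ (j * (2 ^ j - 1))) :=
    fun j hj => limit_upper j (by omega) _ (hα (2 * j) (by omega))
  have hlt : ∀ j : ℕ, 2 ≤ j → α (2 * j) < 1 / (2 * (j : ℝ)) := by
    intro j hj
    refine lt_of_le_of_lt (hup j hj) ?_
    have hj' : (2 : ℝ) ≤ j := by exact_mod_cast hj
    have h1 : (0 : ℝ) < 1 / (2 * (j : ℝ)) := by positivity
    have h2 : (0 : ℝ) < 1 / (3 : ℝ) ^ (j * (2 ^ j - 1)) := by positivity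
    nlinarith
  refine ⟨α, hα, fun j hj => ⟨hlow j hj, hup j hj⟩, hlt, ?_⟩
  have hl : Tendsto (fun j : ℕ => 1 - 1 / (2 * (j : ℝ) - 1)) atTop (𝓝 1) := by
    have h1 : Tendsto (fun j : ℕ => 2 * (j : ℝ) - 1) atTop atTop := by
      apply tendsto_atTop_add_const_right
      exact Tendsto.const_mul_atTop (by norm_num) tendsto_natCast_atTop_atTop
    have h2 : Tendsto (fun j : ℕ => 1 / (2 * (j : ℝ) - 1)) atTop (𝓝 0) := by
      simp_rw [one_div]
      exact h1.inv_tendsto_atTop
    simpa using h2.const_sub 1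
  refine tendsto_of_tendsto_of_tendsto_of_le_of_le' hl tendsto_const_nhds ?_ ?_
  · filter_upwards [eventually_ge_atTop 2] with j hj
    have hj' : (2 : ℝ) ≤ j := by exact_mod_cast hj
    have h1 := hlow j hj
    have h2 : (0 : ℝ) < 2 * j := by linarith
    calc 1 - 1 / (2 * (j : ℝ) - 1)
        = (2 * (j : ℝ)) * ((1 / (2 * (j : ℝ))) * (1 - 1 / (2 * (j : ℝ) - 1))) := by
          rw [← mul_assoc, mul_one_div_cancel (ne_of_gt h2), one_mul]
      _ ≤ (2 * (j : ℝ)) * α (2 * j) := mul_le_mul_of_nonneg_left h1 (le_of_lt h2)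
  · filter_upwards [eventually_ge_atTop 2] with j hj
    have hj' : (2 : ℝ) ≤ j := by exact_mod_cast hj
    have h1 := hlt j hj
    have h2 : (0 : ℝ) < 2 * j := by linarith
    have h3 := mul_le_mul_of_nonneg_left (le_of_lt h1) (le_of_lt h2)
    rw [mul_one_div_cancel (ne_of_gt h2)] at h3
    exact h3

end Pool.Agent.Results.MP_2107e4_co.EvenLength
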